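import Mathlib
import Pool.Agent.H810R2.BallB
import Pool.Agent.Helper269.HinfG

set_option autoImplicit false

/-!
Intersections of finitely generated ideals of `H^∞`: the intersection of an ideal with three
generators and a principal ideal need not be finitely generated, on the bidisc, on the ball of `ℂ²`,
and on every open set of a complex normed space of which one of these two is a holomorphic
retract (stronger form of the starting results `BidiscIntersection` and `BallIntersection`, whose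
proofs are repeated here for the first two statements).
-/

namespace Pool.Agent.Results.MP_b621dd_an.RetractIntersection

section defs

variable {V : Type} [NormedAddCommGroup V] [NormedSpace ℂ V]

/-- `f : Ω → ℂ` is holomorphic and bounded on the (open) subset `Ω` of the complex normed
space `V`. -/
def IsBddHol (Ω : Set V) (f : Ω → ℂ) : Prop :=
  (∃ F : V → ℂ, DifferentiableOn ℂ F Ω ∧ ∀ z : Ω, F z = f z) ∧ ∃ C : ℝ, ∀ z : Ω, ‖f z‖ ≤ C

theorem IsBddHol.mul {Ω : Set V} {f g : Ω → ℂ} (hf : IsBddHol Ω f) (hg : IsBddHol Ω g) :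
    IsBddHol Ω (f * g) := by
  obtain ⟨⟨F, hF, hFf⟩, C, hC⟩ := hf
  obtain ⟨⟨F', hF', hFf'⟩, C', hC'⟩ := hg
  refine ⟨⟨fun z => F z * F' z, hF.mul hF', fun z => ?_⟩, C * C', fun z => ?_⟩
  · change F z * F' z = f z * g z
    rw [hFf, hFf']
  · rw [Pi.mul_apply, norm_mul]
    exact mul_le_mul (hC z) (hC' z) (norm_nonneg _) ((norm_nonneg _).trans (hC z))

theorem IsBddHol.one {Ω : Set V} : IsBddHol Ω 1 :=
  ⟨⟨fun _ => 1, differentiableOn_const _, fun _ => rfl⟩, 1, fun z => by simp⟩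

theorem IsBddHol.add {Ω : Set V} {f g : Ω → ℂ} (hf : IsBddHol Ω f) (hg : IsBddHol Ω g) :
    IsBddHol Ω (f + g) := by
  obtain ⟨⟨F, hF, hFf⟩, C, hC⟩ := hf
  obtain ⟨⟨F', hF', hFf'⟩, C', hC'⟩ := hg
  refine ⟨⟨fun z => F z + F' z, hF.add hF', fun z => ?_⟩, C + C', fun z => ?_⟩
  · change F z + F' z = f z + g z
    rw [hFf, hFf']
  · rw [Pi.add_apply]
    exact (norm_add_le _ _).trans (add_le_add (hC z) (hC' z))

theorem IsBddHol.zero {Ω : Set V} : IsBddHol Ω 0 :=
  ⟨⟨fun _ => 0, differentiableOn_const _, fun _ => rfl⟩, 0, fun z => by simp⟩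

theorem IsBddHol.neg {Ω : Set V} {f : Ω → ℂ} (hf : IsBddHol Ω f) : IsBddHol Ω (-f) := by
  obtain ⟨⟨F, hF, hFf⟩, C, hC⟩ := hf
  refine ⟨⟨fun z => - F z, hF.neg, fun z => ?_⟩, C, fun z => ?_⟩
  · change - F z = - f z
    rw [hFf]
  · rw [Pi.neg_apply, norm_neg]; exact hC z

/-- The bounded holomorphic functions on `Ω ⊆ V` as a subring of the ring of all functions
`Ω → ℂ` with pointwise operations. -/
def hinfSubring (Ω : Set V) : Subring (Ω → ℂ) where
  carrier := {f | IsBddHol Ω f}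
  mul_mem' := IsBddHol.mul
  one_mem' := IsBddHol.one
  add_mem' := IsBddHol.add
  zero_mem' := IsBddHol.zero
  neg_mem' := IsBddHol.neg

/-- The ring `H^∞(Ω)` of bounded holomorphic functions on `Ω ⊆ V`, with pointwise operations. -/
def Hinf (Ω : Set V) : Type := hinfSubring Ω

/-- Pointwise ring operations on `H^∞(Ω)`. -/
instance (Ω : Set V) : CommRing (Hinf Ω) := (hinfSubring Ω).toCommRing

/-- In `H^∞(Ω)` the intersection of an ideal with three generators and a principal ideal need not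
be finitely generated. -/
def ThreeOneFails (Ω : Set V) : Prop :=
  ∃ f₁ f₂ f₃ g : Hinf Ω, ¬ (Ideal.span {f₁, f₂, f₃} ⊓ Ideal.span {g}).FG

/-- `D ⊆ ℂ²` is a holomorphic retract of `Ω ⊆ V`: there are holomorphic maps `i : D → Ω` and
`r : Ω → D` with `r ∘ i = id`. -/
def IsRetract (D : Set (ℂ × ℂ)) (Ω : Set V) : Prop :=
  ∃ (i : ℂ × ℂ → V) (r : V → ℂ × ℂ), DifferentiableOn ℂ i D ∧ Set.MapsTo i D Ω ∧
    DifferentiableOn ℂ r Ω ∧ Set.MapsTo r Ω D ∧ ∀ z ∈ D, r (i z) = z

end defs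

/-- The open unit bidisc in `ℂ²`. -/
def bidisc : Set (ℂ × ℂ) := {z | ‖z.1‖ < 1 ∧ ‖z.2‖ < 1}

/-- The open (Euclidean) unit ball in `ℂ²`. -/
def unitBall : Set (ℂ × ℂ) := {z | ‖z.1‖ ^ 2 + ‖z.2‖ ^ 2 < 1}

open Metric Pool.Agent.Helper269.HinfA Pool.Agent.Helper269.HinfB Pool.Agent.Helper269.HinfC
  Pool.Agent.Helper269.HinfF Pool.Agent.Helper269.HinfG Pool.Agent.H810R2.BallA
  Pool.Agent.H810R2.BallB

/-! ### The bidisc (repeated from the starting result `BidiscIntersection`) -/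

namespace Bi

lemma bidisc_eq : bidisc = ball (0 : ℂ × ℂ) 1 := by
  ext z
  rw [mem_ball_zero_iff, Prod.norm_def, max_lt_iff]
  rfl

/-- an element as a function on the bidisc -/
noncomputable def ev : Hinf bidisc →+* (bidisc → ℂ) := (hinfSubring bidisc).subtype

lemma ev_inj {a b : Hinf bidisc} (h : ∀ z : bidisc, ev a z = ev b z) : a = b :=
  Subtype.ext (funext h)

/-- from functions to elements -/
def toH (f : ℂ × ℂ → ℂ) (hf : B2 f) : Hinf bidisc :=
  ⟨fun z => f z, ⟨f, by rw [bidisc_eq]; exact hf.1, fun _ => rfl⟩, by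
    obtain ⟨-, C, hC⟩ := hf
    exact ⟨C, fun z => hC z (by rw [← bidisc_eq]; exact z.2)⟩⟩

lemma ev_toH (f : ℂ × ℂ → ℂ) (hf : B2 f) (z : bidisc) : ev (toH f hf) z = f z := rfl

lemma ofH (a : Hinf bidisc) : ∃ F : ℂ × ℂ → ℂ, B2 F ∧ ∀ z : bidisc, F z = ev a z := by
  obtain ⟨f, ⟨F, hF, hFf⟩, C, hC⟩ := a
  refine ⟨F, ⟨by rw [← bidisc_eq]; exact hF, C, fun z hz => ?_⟩, hFf⟩
  have hz' : z ∈ bidisc := by rw [bidisc_eq]; exact hz
  have := hC ⟨z, hz'⟩
  rw [← hFf] at this
  exact this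

lemma B2_GG : B2 (fun z => GG z.1) := by
  have := BH_GG 0
  simp only [pow_zero, mul_one] at this
  exact B2.fst this

theorem fails : ThreeOneFails bidisc := by
  set G : Hinf bidisc := toH _ B2_GG with hG
  set f1 : Hinf bidisc := toH _ B2_F1 with hf1
  set f2 : Hinf bidisc := toH _ B2_F2 with hf2
  set f3 : Hinf bidisc := toH _ B2_F3 with hf3
  refine ⟨f1, f2, f3, G, ?_⟩
  intro hfg
  obtain ⟨N, g, hg⟩ := Submodule.fg_iff_exists_fin_generating_family.mp hfg
  -- membership translation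
  have hI : ∀ (a : Hinf bidisc) (F : ℂ × ℂ → ℂ), (∀ z : bidisc, F z = ev a z) →
      (a ∈ Ideal.span {f1, f2, f3} → InI F) := by
    intro a F hF ha
    obtain ⟨b1, b2, b3, hb⟩ := Submodule.mem_span_triple.mp ha
    obtain ⟨B1, hB1, hB1'⟩ := ofH b1
    obtain ⟨B2', hB2, hB2'⟩ := ofH b2
    obtain ⟨B3, hB3, hB3'⟩ := ofH b3
    refine ⟨B1, B2', B3, hB1, hB2, hB3, fun z hz => ?_⟩
    have hz' : z ∈ bidisc := by rw [bidisc_eq]; exact hz
    have h1 := hF ⟨z, hz'⟩
    have h2 := hB1' ⟨z, hz'⟩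
    have h3 := hB2' ⟨z, hz'⟩
    have h4 := hB3' ⟨z, hz'⟩
    simp only at h1 h2 h3 h4
    rw [h1, h2, h3, h4, ← hb]
    rfl
  have hgm : ∀ m : Fin N, g m ∈ Ideal.span {f1, f2, f3} ⊓ Ideal.span {G} := by
    intro m
    rw [← hg]; exact Submodule.subset_span ⟨m, rfl⟩
  have hcex : ∀ m : Fin N, ∃ c : Hinf bidisc, c * G = g m := by
    intro m
    exact Ideal.mem_span_singleton'.mp (hgm m).2
  choose c hc using hcex
  have hCex : ∀ m : Fin N, ∃ F : ℂ × ℂ → ℂ, B2 F ∧ ∀ z : bidisc, F z = ev (c m) z :=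
    fun m => ofH (c m)
  choose C hCB hC using hCex
  have hCI : ∀ m, InI (fun z => GG z.1 * C m z) := by
    intro m
    apply hI (g m) _ _ (hgm m).1
    intro z
    rw [← hc m, hC m z, mul_comm]
    rfl
  -- the test elements
  have hff : ∀ l : ℕ, ∃ h : Fin N → ℂ × ℂ → ℂ, l ≤ N → (∀ m, B2 (h m)) ∧
      ∀ z ∈ ball (0 : ℂ × ℂ) 1, ff N l z = ∑ m, h m z * C m z := by
    intro l
    by_cases hl : l ≤ N
    swap
    · exact ⟨fun _ _ => 0, fun h => absurd h hl⟩
    obtain ⟨a1, a2, a3, h1, h2, h3, h4⟩ := InI_ff hl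
    have hmemI : toH (ff N l) (B2_ff N l) * G ∈ Ideal.span {f1, f2, f3} := by
      refine Submodule.mem_span_triple.mpr ⟨toH a1 h1, toH a2 h2, toH a3 h3, ?_⟩
      apply ev_inj
      intro z
      have hz : (z : ℂ × ℂ) ∈ ball (0 : ℂ × ℂ) 1 := by rw [← bidisc_eq]; exact z.2
      have h5 := h4 z hz
      have h6 : ff N l z * GG z.1.1 = a1 z * F1 z + a2 z * F2 z + a3 z * F3 z := by
        rw [← h5]; ring
      exact h6.symm
    have hmemJ : toH (ff N l) (B2_ff N l) * G ∈ Ideal.span {G} :=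
      Ideal.mem_span_singleton'.mpr ⟨_, rfl⟩
    have hmem : toH (ff N l) (B2_ff N l) * G ∈ Submodule.span (Hinf bidisc) (Set.range g) := by
      rw [hg]; exact ⟨hmemI, hmemJ⟩
    obtain ⟨b, hb⟩ := (Submodule.mem_span_range_iff_exists_fun _).mp hmem
    have hbex : ∀ m : Fin N, ∃ F : ℂ × ℂ → ℂ, B2 F ∧ ∀ z : bidisc, F z = ev (b m) z :=
      fun m => ofH (b m)
    choose B hBB hB using hbex
    refine ⟨B, fun _ => ⟨hBB, fun z hz => ?_⟩⟩
    have hz' : z ∈ bidisc := by rw [bidisc_eq]; exact hz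
    have h8 := congrArg (fun a : Hinf bidisc => ev a ⟨z, hz'⟩) hb
    simp only [map_sum, smul_eq_mul, map_mul, Finset.sum_apply, Pi.mul_apply, ev_toH] at h8
    have h9 : ff N l z * GG z.1 = (∑ m, B m z * C m z) * GG z.1 := by
      have h10 : ff N l z * GG z.1 = ∑ m, ev (b m) ⟨z, hz'⟩ * ev (g m) ⟨z, hz'⟩ := h8.symm
      rw [h10, Finset.sum_mul]
      refine Finset.sum_congr rfl fun m _ => ?_
      have h11 : ev (g m) ⟨z, hz'⟩ = ev (c m) ⟨z, hz'⟩ * GG z.1 := by
        rw [← hc m]; rfl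
      rw [h11, ← hB m ⟨z, hz'⟩, ← hC m ⟨z, hz'⟩]
      ring
    exact mul_right_cancel₀ (GG_ne z.1) h9
  choose h hh using hff
  exact core N C hCB hCI h (fun l hl m => (hh l hl).1 m) (fun l hl z hz => (hh l hl).2 z hz)

end Bi

/-! ### The ball (repeated from the starting result `BallIntersection`) -/

namespace Ba

lemma unitBall_eq : unitBall = UB := rfl

/-- an element as a function on the ball -/
noncomputable def ev : Hinf unitBall →+* (unitBall → ℂ) := (hinfSubring unitBall).subtype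

lemma ev_inj {a b : Hinf unitBall} (h : ∀ z : unitBall, ev a z = ev b z) : a = b :=
  Subtype.ext (funext h)

/-- from functions to elements -/
def toH (f : ℂ × ℂ → ℂ) (hf : BB f) : Hinf unitBall :=
  ⟨fun z => f z, ⟨f, by rw [unitBall_eq]; exact hf.1, fun _ => rfl⟩, by
    obtain ⟨-, C, hC⟩ := hf
    exact ⟨C, fun z => hC z (by rw [← unitBall_eq]; exact z.2)⟩⟩

lemma ev_toH (f : ℂ × ℂ → ℂ) (hf : BB f) (z : unitBall) : ev (toH f hf) z = f z := rfl

lemma ofH (a : Hinf unitBall) : ∃ F : ℂ × ℂ → ℂ, BB F ∧ ∀ z : unitBall, F z = ev a z := by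
  obtain ⟨f, ⟨F, hF, hFf⟩, C, hC⟩ := a
  refine ⟨F, ⟨by rw [← unitBall_eq]; exact hF, C, fun z hz => ?_⟩, hFf⟩
  have hz' : z ∈ unitBall := by rw [unitBall_eq]; exact hz
  have := hC ⟨z, hz'⟩
  rw [← hFf] at this
  exact this

lemma BB_GG : BB (fun z => GG z.1) := by
  have := BH_GG 0
  simp only [pow_zero, mul_one] at this
  exact B2_pull (B2.fst this)

theorem fails : ThreeOneFails unitBall := by
  set G : Hinf unitBall := toH _ BB_GG with hG
  set f1 : Hinf unitBall := toH _ (B2_pull B2_F1) with hf1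
  set f2 : Hinf unitBall := toH _ (B2_pull B2_F2) with hf2
  set f3 : Hinf unitBall := toH _ (B2_pull B2_F3) with hf3
  refine ⟨f1, f2, f3, G, ?_⟩
  intro hfg
  obtain ⟨N, g, hg⟩ := Submodule.fg_iff_exists_fin_generating_family.mp hfg
  -- membership translation
  have hI : ∀ (a : Hinf unitBall) (F : ℂ × ℂ → ℂ), (∀ z : unitBall, F z = ev a z) →
      (a ∈ Ideal.span {f1, f2, f3} → InB F) := by
    intro a F hF ha
    obtain ⟨b1, b2, b3, hb⟩ := Submodule.mem_span_triple.mp ha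
    obtain ⟨B1, hB1, hB1'⟩ := ofH b1
    obtain ⟨B2', hB2, hB2'⟩ := ofH b2
    obtain ⟨B3, hB3, hB3'⟩ := ofH b3
    refine ⟨B1, B2', B3, hB1, hB2, hB3, fun z hz => ?_⟩
    have hz' : z ∈ unitBall := by rw [unitBall_eq]; exact hz
    have h1 := hF ⟨z, hz'⟩
    have h2 := hB1' ⟨z, hz'⟩
    have h3 := hB2' ⟨z, hz'⟩
    have h4 := hB3' ⟨z, hz'⟩
    simp only at h1 h2 h3 h4
    rw [h1, h2, h3, h4, ← hb]
    rfl
  have hgm : ∀ m : Fin N, g m ∈ Ideal.span {f1, f2, f3} ⊓ Ideal.span {G} := by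
    intro m
    rw [← hg]; exact Submodule.subset_span ⟨m, rfl⟩
  have hcex : ∀ m : Fin N, ∃ c : Hinf unitBall, c * G = g m := by
    intro m
    exact Ideal.mem_span_singleton'.mp (hgm m).2
  choose c hc using hcex
  have hCex : ∀ m : Fin N, ∃ F : ℂ × ℂ → ℂ, BB F ∧ ∀ z : unitBall, F z = ev (c m) z :=
    fun m => ofH (c m)
  choose C hCB hC using hCex
  have hCI : ∀ m, InB (fun z => GG z.1 * C m z) := by
    intro m
    apply hI (g m) _ _ (hgm m).1
    intro z
    rw [← hc m, hC m z, mul_comm]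
    rfl
  -- the test elements
  have hff : ∀ l : ℕ, ∃ h : Fin N → ℂ × ℂ → ℂ, l ≤ N → (∀ m, BB (h m)) ∧
      ∀ z ∈ UB, ff N l (Phi z) = ∑ m, h m z * C m z := by
    intro l
    by_cases hl : l ≤ N
    swap
    · exact ⟨fun _ _ => 0, fun h => absurd h hl⟩
    obtain ⟨a1, a2, a3, h1, h2, h3, h4⟩ := InB_ff hl
    have hmemI : toH (fun z => ff N l (Phi z)) (B2_pull (B2_ff N l)) * G ∈ Ideal.span {f1, f2, f3} := by
      refine Submodule.mem_span_triple.mpr ⟨toH a1 h1, toH a2 h2, toH a3 h3, ?_⟩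
      apply ev_inj
      intro z
      have hz : (z : ℂ × ℂ) ∈ UB := by rw [← unitBall_eq]; exact z.2
      have h5 := h4 z hz
      have h6 : ff N l (Phi z) * GG z.1.1 =
          a1 z * F1 (Phi z) + a2 z * F2 (Phi z) + a3 z * F3 (Phi z) := by
        rw [← h5]; ring
      exact h6.symm
    have hmemJ : toH (fun z => ff N l (Phi z)) (B2_pull (B2_ff N l)) * G ∈ Ideal.span {G} :=
      Ideal.mem_span_singleton'.mpr ⟨_, rfl⟩
    have hmem : toH (fun z => ff N l (Phi z)) (B2_pull (B2_ff N l)) * G ∈ Submodule.span (Hinf unitBall) (Set.range g) := by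
      rw [hg]; exact ⟨hmemI, hmemJ⟩
    obtain ⟨b, hb⟩ := (Submodule.mem_span_range_iff_exists_fun _).mp hmem
    have hbex : ∀ m : Fin N, ∃ F : ℂ × ℂ → ℂ, BB F ∧ ∀ z : unitBall, F z = ev (b m) z :=
      fun m => ofH (b m)
    choose B hBB hB using hbex
    refine ⟨B, fun _ => ⟨hBB, fun z hz => ?_⟩⟩
    have hz' : z ∈ unitBall := by rw [unitBall_eq]; exact hz
    have h8 := congrArg (fun a : Hinf unitBall => ev a ⟨z, hz'⟩) hb
    simp only [map_sum, smul_eq_mul, map_mul, Finset.sum_apply, Pi.mul_apply, ev_toH] at h8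
    have h9 : ff N l (Phi z) * GG z.1 = (∑ m, B m z * C m z) * GG z.1 := by
      have h10 : ff N l (Phi z) * GG z.1 = ∑ m, ev (b m) ⟨z, hz'⟩ * ev (g m) ⟨z, hz'⟩ := h8.symm
      rw [h10, Finset.sum_mul]
      refine Finset.sum_congr rfl fun m _ => ?_
      have h11 : ev (g m) ⟨z, hz'⟩ = ev (c m) ⟨z, hz'⟩ * GG z.1 := by
        rw [← hc m]; rfl
      rw [h11, ← hB m ⟨z, hz'⟩, ← hC m ⟨z, hz'⟩]
      ring
    exact mul_right_cancel₀ (GG_ne z.1) h9
  choose h hh using hff
  exact coreB N C hCB hCI h (fun l hl m => (hh l hl).1 m) (fun l hl z hz => (hh l hl).2 z hz)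

end Ba

/-! ### Retracts -/

section retracts

variable {V : Type} [NormedAddCommGroup V] [NormedSpace ℂ V]
variable {W : Type} [NormedAddCommGroup W] [NormedSpace ℂ W]

/-- composition with a holomorphic map -/
def pull {Ω : Set V} {Ω' : Set W} (h : W → V) (hd : DifferentiableOn ℂ h Ω')
    (hm : Set.MapsTo h Ω' Ω) : Hinf Ω →+* Hinf Ω' where
  toFun f := ⟨fun w => f.1 ⟨h w, hm w.2⟩, by
    obtain ⟨⟨F, hF, hFf⟩, C, hC⟩ := f.2
    exact ⟨⟨fun w => F (h w), hF.comp hd hm, fun w => hFf ⟨h w, hm w.2⟩⟩, C,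
      fun w => hC ⟨h w, hm w.2⟩⟩⟩
  map_one' := rfl
  map_mul' _ _ := rfl
  map_zero' := rfl
  map_add' _ _ := rfl

lemma pull_pull {D : Set V} {Ω : Set W} (i : V → W) (r : W → V) (hi : DifferentiableOn ℂ i D)
    (him : Set.MapsTo i D Ω) (hr : DifferentiableOn ℂ r Ω) (hrm : Set.MapsTo r Ω D)
    (h : ∀ z ∈ D, r (i z) = z) : (pull i hi him).comp (pull r hr hrm) = RingHom.id (Hinf D) := by
  ext1 f
  apply Subtype.ext
  funext z
  exact congrArg f.1 (Subtype.ext (h z z.2) : (⟨r (i z), hrm (him z.2)⟩ : D) = z)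

end retracts

/-- finite generation of intersections passes to retracts of rings -/
lemma fg_of_retract {A B : Type} [CommRing A] [CommRing B] (φ : A →+* B) (ψ : B →+* A)
    (h : ψ.comp φ = RingHom.id A) (I J : Ideal A) (hfg : (I.map φ ⊓ J.map φ).FG) :
    (I ⊓ J).FG := by
  have hmap : ∀ K : Ideal A, (K.map φ).map ψ = K := by
    intro K
    rw [Ideal.map_map, h, Ideal.map_id]
  have h1 : (I.map φ ⊓ J.map φ).map ψ = I ⊓ J := by
    apply le_antisymm
    · apply le_inf
      · calc (I.map φ ⊓ J.map φ).map ψ ≤ (I.map φ).map ψ := Ideal.map_mono inf_le_left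
          _ = I := hmap I
      · calc (I.map φ ⊓ J.map φ).map ψ ≤ (J.map φ).map ψ := Ideal.map_mono inf_le_right
          _ = J := hmap J
    · intro x hx
      have h2 : φ x ∈ I.map φ ⊓ J.map φ :=
        ⟨Ideal.mem_map_of_mem φ hx.1, Ideal.mem_map_of_mem φ hx.2⟩
      have h3 := Ideal.mem_map_of_mem ψ h2
      have h4 : ψ (φ x) = x := by
        have := congrArg (fun g : A →+* A => g x) h
        exact this
      rwa [h4] at h3
  rw [← h1]
  exact Ideal.FG.map hfg ψ

theorem fails_of_retract {V : Type} [NormedAddCommGroup V] [NormedSpace ℂ V] {D : Set (ℂ × ℂ)}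
    {Ω : Set V} (hret : IsRetract D Ω) (hD : ThreeOneFails D) : ThreeOneFails Ω := by
  obtain ⟨i, r, hi, him, hr, hrm, h⟩ := hret
  obtain ⟨f1, f2, f3, g, hf⟩ := hD
  refine ⟨pull r hr hrm f1, pull r hr hrm f2, pull r hr hrm f3, pull r hr hrm g, fun hfg => hf ?_⟩
  refine fg_of_retract (pull r hr hrm) (pull i hi him) (pull_pull i r hi him hr hrm h) _ _ ?_
  rw [Ideal.map_span, Ideal.map_span, Set.image_singleton, Set.image_insert_eq,
    Set.image_insert_eq, Set.image_singleton]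
  exact hfg

/-- **Intersections of finitely generated ideals of `H^∞`.** The intersection of an ideal with three
generators and a principal ideal need not be finitely generated
* in `H^∞(D²)` and in `H^∞(B²)`;
* in `H^∞(Ω)` for every open subset `Ω` of a complex normed space of which `D²` or `B²` is a
  holomorphic retract;
* in `H^∞(D² × Ω)` and `H^∞(B² × Ω)` for every nonempty open subset `Ω` of a complex normed space;
* in `H^∞` of the open unit ball of every complex inner product space containing two orthonormal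
  vectors (for example of an infinite-dimensional Hilbert space). -/
theorem result :
    ThreeOneFails bidisc ∧ ThreeOneFails unitBall ∧
    (∀ (V : Type) [NormedAddCommGroup V] [NormedSpace ℂ V] (Ω : Set V), IsOpen Ω →
      (IsRetract bidisc Ω ∨ IsRetract unitBall Ω) → ThreeOneFails Ω) ∧
    (∀ (V : Type) [NormedAddCommGroup V] [NormedSpace ℂ V] (Ω : Set V), IsOpen Ω →
      Ω.Nonempty → ThreeOneFails (bidisc ×ˢ Ω) ∧ ThreeOneFails (unitBall ×ˢ Ω)) ∧
    (∀ (H : Type) [NormedAddCommGroup H] [InnerProductSpace ℂ H] (v : Fin 2 → H),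
      Orthonormal ℂ v → ThreeOneFails (ball (0 : H) 1)) := by
  refine ⟨Bi.fails, Ba.fails, ?_, ?_, ?_⟩
  · intro V _ _ Ω _ h
    rcases h with h | h
    · exact fails_of_retract h Bi.fails
    · exact fails_of_retract h Ba.fails
  · intro V _ _ Ω _ hne
    obtain ⟨w, hw⟩ := hne
    have hret : ∀ D : Set (ℂ × ℂ), IsRetract D (D ×ˢ Ω) := by
      intro D
      refine ⟨fun z => (z, w), Prod.fst, by fun_prop, fun z hz => ⟨hz, hw⟩, by fun_prop,
        fun z hz => hz.1, fun z _ => rfl⟩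
    exact ⟨fails_of_retract (hret bidisc) Bi.fails, fails_of_retract (hret unitBall) Ba.fails⟩
  · intro H _ _ v hv
    have hret : IsRetract unitBall (ball (0 : H) 1) := by
      refine ⟨fun z => z.1 • v 0 + z.2 • v 1, fun w => (inner ℂ (v 0) w, inner ℂ (v 1) w),
        by fun_prop, ?_, ?_, ?_, ?_⟩
      · intro z hz
        rw [mem_ball_zero_iff]
        have h0 : inner ℂ (z.1 • v 0) (z.2 • v 1) = 0 := by
          rw [inner_smul_left, inner_smul_right, hv.2 (by decide : (0 : Fin 2) ≠ 1)]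
          simp
        have h1 := norm_add_sq_eq_norm_sq_add_norm_sq_of_inner_eq_zero (z.1 • v 0) (z.2 • v 1) h0
        rw [norm_smul, norm_smul, hv.1, hv.1, mul_one, mul_one] at h1
        have hz' : ‖z.1‖ ^ 2 + ‖z.2‖ ^ 2 < 1 := hz
        have h2 : ‖z.1 • v 0 + z.2 • v 1‖ ^ 2 < 1 := by
          rw [pow_two, h1]; nlinarith
        nlinarith [norm_nonneg (z.1 • v 0 + z.2 • v 1)]
      · apply Differentiable.differentiableOn
        exact (innerSL ℂ (v 0)).differentiable.prodMk (innerSL ℂ (v 1)).differentiable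
      · intro w hw
        rw [mem_ball_zero_iff] at hw
        have h1 := hv.sum_inner_products_le w (s := Finset.univ)
        rw [Fin.sum_univ_two] at h1
        have h2 : ‖w‖ ^ 2 < 1 := by nlinarith [norm_nonneg w]
        change ‖inner ℂ (v 0) w‖ ^ 2 + ‖inner ℂ (v 1) w‖ ^ 2 < 1
        linarith
      · intro z _
        have a0 : inner ℂ (v 0) (v 0) = 1 := by
          rw [inner_self_eq_norm_sq_to_K, hv.1]; simp
        have a1 : inner ℂ (v 1) (v 1) = 1 := by
          rw [inner_self_eq_norm_sq_to_K, hv.1]; simp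
        have b0 : inner ℂ (v 0) (v 1) = 0 := hv.2 (by decide)
        have b1 : inner ℂ (v 1) (v 0) = 0 := hv.2 (by decide)
        simp only [inner_add_right, inner_smul_right, a0, a1, b0, b1]
        simp
    exact fails_of_retract hret Ba.fails

end Pool.Agent.Results.MP_b621dd_an.RetractIntersection
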